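import Pool.Agent.Helper45.LS.Prune

/-!
# Pruning lists of candidates with excluded hash values
-/

set_option autoImplicit false

namespace Pool.Agent.Helper70K1.CT

open Pool.Agent.NPC
open Pool.Agent.Helper70K1.SP (tb tb_eq hsh hsh_spec nodup_ext exists_valB)
open Pool.Agent.Helper70K1.PP (hh hh_length key coll collL collL_eq findT findT_lt findT_spec NoZD cc)
open Pool.Agent.H579R2.Spt (BL mem_BL card_BL)
open Pool.Agent.Helper45.LS

/-- The numbers of the pairs of hash values are less than `4 ^ r`. -/
theorem keyN_lt (r : ℕ) (f : List Bool) (t u : ℕ) : keyN r f t u < 4 ^ r := by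
  unfold keyN
  refine lt_of_lt_of_le (valB_lt _) (le_of_eq ?_)
  rw [List.length_append, hh_length (by decide), hh_length (by decide), ← two_mul, pow_mul]
  norm_num

/-- The number of the elements less than `k` of a range. -/
theorem countP_range (k : ℕ) : ∀ M : ℕ,
    (List.range M).countP (fun i => decide (i < k)) = min k M
  | 0 => by simp
  | M + 1 => by
    rw [List.range_succ, List.countP_append, countP_range k M, List.countP_singleton]
    by_cases h : M < k
    · rw [if_pos (by simpa using h)]
      omega
    · rw [if_neg (by simpa using h)]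
      omega

section

variable {g : List Bool → ℕ} {qb : ℕ → ℕ → ℕ → ℕ → List Bool} {M N r : ℕ} {f : List Bool}

/-- Pruning makes long lists shorter. -/
theorem prS_length_lt2 {A : List ℕ} {j μ : ℕ} (hr : 0 < r) (hf : f.length = r) (hz : NoZD r f)
    (hA : A.Nodup) (hlt : ∀ v ∈ A, v < 2 ^ j) (hN : A.length ≤ 2 * N) (hN2 : N < A.length)
    (hj : j ≤ μ) (hl : 2 * (2 * N * (2 * N) * μ + 1 + 4) ^ 2 + 1 ≤ 2 ^ (r * cc))
    (hNM : 16 ^ r ≤ N)
    (hg : ∀ q < 2 ^ (r * cc), ∀ t < 2 ^ (r * (2 * cc)),
      g (bits ((List.range M).map (qb j q t))) < 4 ^ r) :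
    (prS g qb M N r f j A).length < A.length := by
  obtain ⟨h1, h2, h3⟩ := hsh_spec (l := r * cc) hlt hN (by
    refine le_trans ?_ hl
    have : 2 * N * (2 * N) * j ≤ 2 * N * (2 * N) * μ := Nat.mul_le_mul_left _ hj
    gcongr)
  set q := hsh (r * cc) A with hq
  set us := A.map fun v => v % q with hus
  have hnd : us.Nodup := by
    rw [hus, List.nodup_map_iff_inj_on hA]
    exact h3
  have hult : ∀ u ∈ us, u < 2 ^ (r * cc) := by
    intro u hu
    obtain ⟨v, _, rfl⟩ := List.mem_map.1 hu
    exact (Nat.mod_lt _ h1).trans h2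
  set t := findT r f cc us with ht
  have ht2 := findT_spec hr (c := cc) (by decide) hf hz hnd hult
  have hE1 := hg q h2 t findT_lt
  set E := g (bits ((List.range M).map (qb j q t))) with hE
  have hcard : us.toFinset.card = A.length := by
    rw [List.toFinset_card_of_nodup hnd, hus, List.length_map]
  obtain ⟨T, hT, hTE⟩ := exists_valB (n := 2 * r) (V := E) (by
    refine lt_of_lt_of_le hE1 (le_of_eq ?_)
    rw [pow_mul]
    norm_num)
  obtain ⟨u, hu, hu2⟩ := hit (c := cc) (by decide) ht2 (by rw [hcard]; omega)
    (a := T.take r) (b := T.drop r) (by rw [List.length_take]; omega)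
    (by rw [List.length_drop]; omega)
  rw [List.mem_toFinset, hus, List.mem_map] at hu
  obtain ⟨v, hv, rfl⟩ := hu
  unfold prS
  rw [if_neg (by omega)]
  simp only [← hq, ← hus, ← ht, ← hE]
  refine List.length_filter_lt_length_iff_exists.2 ⟨v, hv, ?_⟩
  have h4 : keyN r f t (v % q) = E := by
    unfold key at hu2
    rw [Prod.mk.injEq] at hu2
    unfold keyN
    rw [hu2.1, hu2.2, List.take_append_drop, hTE]
  simp [h4]

theorem iter_lengthS2 {A : List ℕ} {j μ : ℕ} (hr : 0 < r) (hf : f.length = r) (hz : NoZD r f)
    (hA : A.Nodup) (hlt : ∀ v ∈ A, v < 2 ^ j) (hN : A.length ≤ 2 * N)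
    (hj : j ≤ μ) (hl : 2 * (2 * N * (2 * N) * μ + 1 + 4) ^ 2 + 1 ≤ 2 ^ (r * cc))
    (hNM : 16 ^ r ≤ N)
    (hg : ∀ q < 2 ^ (r * cc), ∀ t < 2 ^ (r * (2 * cc)),
      g (bits ((List.range M).map (qb j q t))) < 4 ^ r) (n : ℕ) :
    ((prS g qb M N r f j)^[n] A).length ≤ N ∨ ((prS g qb M N r f j)^[n] A).length + n ≤ A.length := by
  induction n with
  | zero => exact Or.inr (by simp)
  | succ n ih =>
    rw [Function.iterate_succ_apply']
    set B := (prS g qb M N r f j)^[n] A with hB
    have hs : B.Sublist A := prS_iter_sublist _ _ _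
    have h1 : (prS g qb M N r f j B).length ≤ B.length := (prS_sublist j B).length_le
    by_cases h2 : B.length ≤ N
    · exact Or.inl (h1.trans h2)
    · rcases ih with ih | ih
      · exact absurd ih h2
      · right
        have h3 := prS_length_lt2 (g := g) (qb := qb) (A := B) hr hf hz (hA.sublist hs)
          (fun v hv => hlt v (hs.subset hv)) (hs.length_le.trans hN) (by omega) hj hl hNM hg
        omega

/-- The true value is among the candidates: the number `keyN` of the hash values of the true value
is never the number given by `g`. -/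
theorem mem_listS2 {V μ : ℕ}
    (hr : 0 < r) (hf : f.length = r) (hz : NoZD r f)
    (hl : 2 * (2 * N * (2 * N) * μ + 1 + 4) ^ 2 + 1 ≤ 2 ^ (r * cc))
    (hNM : 16 ^ r ≤ N) (hN0 : 0 < N)
    (hg : ∀ j ≤ μ, ∀ q < 2 ^ (r * cc), ∀ t < 2 ^ (r * (2 * cc)),
      g (bits ((List.range M).map (qb j q t))) < 4 ^ r ∧
        keyN r f t (V % 2 ^ j % q) ≠ g (bits ((List.range M).map (qb j q t)))) :
    ∀ j ≤ μ, V % 2 ^ j ∈ listS g qb M N r f j
  | 0, _ => by simp [listS, Nat.mod_one]
  | j + 1, hj => by
    have ih := mem_listS2 hr hf hz hl hNM hN0 hg j (by omega)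
    set A := listS g qb M N r f j ++ (listS g qb M N r f j).map fun v => v + 2 ^ j with hA
    have hmem : V % 2 ^ (j + 1) ∈ A := by
      rw [hA, List.mem_append, List.mem_map]
      have h1 : V % 2 ^ (j + 1) = V % 2 ^ j + 2 ^ j * (V / 2 ^ j % 2) := Nat.mod_pow_succ
      rcases Nat.mod_two_eq_zero_or_one (V / 2 ^ j) with h2 | h2
      · left
        rw [h1, h2]
        simpa using ih
      · right
        exact ⟨_, ih, by rw [h1, h2]; ring⟩
    have hnd : A.Nodup := nodup_ext (nodup_listS j) (listS_lt j)
    have hlen : A.length ≤ 2 * N := by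
      have := length_listS (g := g) (qb := qb) (M := M) (r := r) (f := f) hN0 j
      rw [hA, List.length_append, List.length_map]
      omega
    have hlt : ∀ v ∈ A, v < 2 ^ (j + 1) := by
      intro v hv
      rw [hA, List.mem_append, List.mem_map] at hv
      rw [pow_succ]
      rcases hv with h | ⟨u, h, rfl⟩
      · have := listS_lt j v h
        omega
      · have := listS_lt j u h
        omega
    -- one step keeps the true value
    have hkeep : ∀ B : List ℕ, V % 2 ^ (j + 1) ∈ B →
        V % 2 ^ (j + 1) ∈ prS g qb M N r f (j + 1) B := by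
      intro B hB
      unfold prS
      split_ifs with hBN
      · exact hB
      · rw [List.mem_filter]
        refine ⟨hB, ?_⟩
        set q := hsh (r * cc) B with hq'
        set t := findT r f cc (B.map fun v => v % q) with ht
        have hqlt : q < 2 ^ (r * cc) := by
          rw [hq']
          unfold hsh
          cases h4 : (List.range (2 ^ (r * cc))).filter fun h => decide (0 < h) && B.all fun u =>
            B.all fun v => decide (u = v) || !decide (u % h = v % h) with
          | nil => simp
          | cons a t' =>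
            have h5 : a ∈ (List.range (2 ^ (r * cc))).filter fun h => decide (0 < h) && B.all
                fun u => B.all fun v => decide (u = v) || !decide (u % h = v % h) := by
              rw [h4]; exact List.mem_cons_self
            rw [List.mem_filter, List.mem_range] at h5
            simpa using h5.1
        obtain ⟨_, h6⟩ := hg (j + 1) hj q hqlt t findT_lt
        simpa using h6
    have hiter : ∀ n, V % 2 ^ (j + 1) ∈ (prS g qb M N r f (j + 1))^[n] A := by
      intro n
      induction n with
      | zero => exact hmem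
      | succ n ih =>
        rw [Function.iterate_succ_apply']
        exact hkeep _ ih
    rw [listS, stepS, ← hA]
    have h8 : ((prS g qb M N r f (j + 1))^[2 * N] A).length ≤ N := by
      rcases iter_lengthS2 (g := g) (qb := qb) hr hf hz hnd hlt hlen hj hl hNM
        (fun q hq t ht => (hg (j + 1) hj q hq t ht).1) (2 * N) with h | h
      · exact h
      · omega
    rw [List.take_of_length_le h8]
    exact hiter _

end

end Pool.Agent.Helper70K1.CT
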